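import Pool.Agent.H14.CN.Final

set_option autoImplicit false

/-!
# Even congruent numbers in residue classes: exact order of the number of those with a triangle
whose sides have a small common denominator

For every modulus `M` and every class `k` mod `M` containing an even squarefree number, the number of
even squarefree `n ≤ X` with `n ≡ k` mod `M` which are the area of a rational right triangle with sides
of common denominator at most `S` is of exact order `X ^ (1/2) * (log S) ^ 4`, uniformly for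
`S₀ ≤ S ≤ X ^ (1/6)`. In particular there are at least `c X ^ (1/2) (log X) ^ 4` even squarefree
congruent numbers up to `X` in each such class.
-/

namespace Pool.Agent.Results.MP_f126a2_nt.OrderSmallTrianglesEven

open Pool.Agent.H14.CN

theorem result (M : ℕ) (hM : 0 < M) (k : ℕ) (hk : Squarefree k) (hk2 : Even k) :
    ∃ c : ℝ, 0 < c ∧ ∃ S₀ : ℝ, ∀ X : ℕ, ∀ S : ℝ, S₀ ≤ S → S ^ 6 ≤ X →
      c * (Real.sqrt X * Real.log S ^ 4) ≤
        (({n : ℕ | n ≤ X ∧ Squarefree n ∧ (Even n ∧ n ≡ k [MOD M]) ∧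
          ∃ a b c : ℚ, 0 < a ∧ 0 < b ∧ a ^ 2 + b ^ 2 = c ^ 2 ∧ (n : ℚ) = a * b / 2 ∧
            (((a.den.lcm b.den).lcm c.den : ℕ) : ℝ) ≤ S} : Set ℕ).ncard : ℝ) ∧
      (({n : ℕ | n ≤ X ∧ Squarefree n ∧ (Even n ∧ n ≡ k [MOD M]) ∧
          ∃ a b c : ℚ, 0 < a ∧ 0 < b ∧ a ^ 2 + b ^ 2 = c ^ 2 ∧ (n : ℚ) = a * b / 2 ∧
            (((a.den.lcm b.den).lcm c.den : ℕ) : ℝ) ≤ S} : Set ℕ).ncard : ℝ) ≤
        176 * (Real.sqrt X * Real.log S ^ 4) := by
  obtain ⟨k', hk'⟩ := hk2.two_dvd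
  have hk's : Squarefree k' := hk.squarefree_of_dvd ⟨2, by rw [hk']; ring⟩
  have hodd : Odd k' := by
    by_contra hcon
    rw [Nat.not_odd_iff_even] at hcon
    obtain ⟨r, hr⟩ := hcon.two_dvd
    have h4 : 2 * 2 ∣ k := ⟨r, by rw [hk', hr]; ring⟩
    have := Nat.isUnit_iff.1 (hk 2 h4)
    omega
  refine main (e := 2) (k := k') (M := M) (Or.inr rfl) hk's (fun _ => hodd) hM
    (fun n => Even n ∧ n ≡ k [MOD M]) ?_
  intro n hn
  rw [← hk'] at hn
  refine ⟨?_, hn.of_dvd ⟨2, by ring⟩⟩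
  have h2 : n ≡ k [MOD 2] := hn.of_dvd ⟨M, by ring⟩
  have h3 : k % 2 = 0 := Nat.even_iff.1 hk2
  rw [Nat.even_iff, ← h3]
  exact h2

end Pool.Agent.Results.MP_f126a2_nt.OrderSmallTrianglesEven
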